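import Pool.Agent.Helper1.KU.Mach

/-!
# From real-time simulation to command level execution
-/

namespace Pool.Agent.H29.KU

open Pool.Agent.Helper1.KU

theorem bitsOf_append_left (w : List Cmd) (g : Cmd) {i : ℕ} (hi : i < 3 * w.length) :
    bitsOf (w ++ [g]) i = bitsOf w i := by
  unfold bitsOf
  rw [List.getElem?_append_left (by omega)]

theorem bitsOf_append_right (w : List Cmd) (g : Cmd) {j : ℕ} (hj : j < 3) :
    bitsOf (w ++ [g]) (3 * w.length + j) = g.bits j := by
  unfold bitsOf
  have h1 : (3 * w.length + j) / 3 = w.length := by omega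
  have h2 : (3 * w.length + j) % 3 = j := by omega
  rw [h1, h2]
  simp

/-! ### the run of `mach` -/

theorem step_read (x : ℕ → Bool) {l : Fin 18} {nxt : Bool → Fin 18}
    (hl : mach.prog l = .read nxt) (p : ℕ → Fin 3 → ℕ) (s r : ℕ) (o : List Bool) :
    mach.step x (⟨l, 0, p, s, r, o⟩ : SConf 3 18) =
      (⟨nxt (x r), 0, p, s, r + 1, o⟩ : SConf 3 18) := by
  unfold SMM.step
  simp only [hl]
  rfl

theorem three_reads (x : ℕ → Bool) (p : ℕ → Fin 3 → ℕ) (s r : ℕ) (o : List Bool) (b0 b1 b2 : Bool)
    (h0 : x r = b0) (h1 : x (r + 1) = b1) (h2 : x (r + 2) = b2) :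
    mach.step x (mach.step x (mach.step x (⟨(0 : Fin 18), 0, p, s, r, o⟩ : SConf 3 18))) =
      (⟨(if b0 then (if b1 then (if b2 then 14 else 13) else (if b2 then 12 else 11)) else
        (if b1 then (if b2 then 10 else 9) else (if b2 then 8 else 7)) : Fin 18), 0, p, s, r + 3, o⟩ :
        SConf 3 18) := by
  rw [step_read x (l := 0) (nxt := fun b => if b then 2 else 1) rfl, h0]
  cases b0
  · rw [show (if false = true then (2 : Fin 18) else 1) = 1 from rfl]
    rw [step_read x (l := 1) (nxt := fun b => if b then 4 else 3) rfl, h1]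
    cases b1
    · rw [show (if false = true then (4 : Fin 18) else 3) = 3 from rfl]
      rw [step_read x (l := 3) (nxt := fun b => if b then 8 else 7) rfl]
      rw [show r + 1 + 1 = r + 2 from rfl, h2]
      rfl
    · rw [show (if true = true then (4 : Fin 18) else 3) = 4 from rfl]
      rw [step_read x (l := 4) (nxt := fun b => if b then 10 else 9) rfl]
      rw [show r + 1 + 1 = r + 2 from rfl, h2]
      rfl
  · rw [show (if true = true then (2 : Fin 18) else 1) = 2 from rfl]
    rw [step_read x (l := 2) (nxt := fun b => if b then 6 else 5) rfl, h1]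
    cases b1
    · rw [show (if false = true then (6 : Fin 18) else 5) = 5 from rfl]
      rw [step_read x (l := 5) (nxt := fun b => if b then 12 else 11) rfl]
      rw [show r + 1 + 1 = r + 2 from rfl, h2]
      rfl
    · rw [show (if true = true then (6 : Fin 18) else 5) = 6 from rfl]
      rw [step_read x (l := 6) (nxt := fun b => if b then 14 else 13) rfl]
      rw [show r + 1 + 1 = r + 2 from rfl, h2]
      rfl

theorem mach_steps (x : ℕ → Bool) (p : ℕ → Fin 3 → ℕ) (s r : ℕ) (o : List Bool) (g : Cmd)
    (h0 : x r = g.bits 0) (h1 : x (r + 1) = g.bits 1) (h2 : x (r + 2) = g.bits 2) :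
    (∃ l p' s', (mach.step x)^[5] (⟨(0 : Fin 18), 0, p, s, r, o⟩ : SConf 3 18) =
      (⟨l, 0, p', s', r + 3, o⟩ : SConf 3 18)) ∧
    (mach.step x)^[6] (⟨(0 : Fin 18), 0, p, s, r, o⟩ : SConf 3 18) =
      (⟨(0 : Fin 18), 0, ((AMem.mk p s).cmd g).ptr, ((AMem.mk p s).cmd g).size, r + 3,
        ((AMem.mk p s).cmd g).label :: o⟩ : SConf 3 18) := by
  have e4 : (mach.step x)^[4] (⟨(0 : Fin 18), 0, p, s, r, o⟩ : SConf 3 18) =
        (⟨(15 : Fin 18), 0, ((AMem.mk p s).cmd g).ptr, ((AMem.mk p s).cmd g).size, r + 3, o⟩ :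
          SConf 3 18) := by
    rw [Function.iterate_succ_apply', Function.iterate_succ_apply', Function.iterate_succ_apply',
      Function.iterate_succ_apply', Function.iterate_zero, id_eq]
    rw [three_reads x p s r o _ _ _ h0 h1 h2]
    cases g <;> rfl
  have e5 : ∀ (p : ℕ → Fin 3 → ℕ) (s r : ℕ) (o : List Bool), 
      mach.step x (⟨(15 : Fin 18), 0, p, s, r, o⟩ : SConf 3 18) =
      (⟨if p (p 0 0) 0 = p 0 0 then (16 : Fin 18) else 17, 0, p, s, r, o⟩ : SConf 3 18) := by
    intro p s r o
    rfl
  have e6 : ∀ (p : ℕ → Fin 3 → ℕ) (s r : ℕ) (o : List Bool), 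
      mach.step x (mach.step x (⟨(15 : Fin 18), 0, p, s, r, o⟩ : SConf 3 18)) =
      (⟨(0 : Fin 18), 0, p, s, r, decide (p (p 0 0) 0 = p 0 0) :: o⟩ : SConf 3 18) := by
    intro p s r o
    rw [e5]
    by_cases h : p (p 0 0) 0 = p 0 0
    · rw [if_pos h, decide_eq_true h]
      rfl
    · rw [if_neg h, decide_eq_false h]
      rfl
  constructor
  · refine ⟨if ((AMem.mk p s).cmd g).ptr (((AMem.mk p s).cmd g).ptr 0 0) 0 =
      ((AMem.mk p s).cmd g).ptr 0 0 then (16 : Fin 18) else 17, ((AMem.mk p s).cmd g).ptr,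
      ((AMem.mk p s).cmd g).size, ?_⟩
    rw [Function.iterate_succ_apply', e4, e5]
  · rw [Function.iterate_succ_apply', Function.iterate_succ_apply', e4, e6]
    rfl

theorem cmds_append (s : AMem) (w : List Cmd) (g : Cmd) : s.cmds (w ++ [g]) = (s.cmds w).cmd g := by
  simp [AMem.cmds]

theorem mach_run_aux (w : List Cmd) : ∀ x : ℕ → Bool, (∀ i < 3 * w.length, x i = bitsOf w i) →
    ∃ o : List Bool, o.length = w.length ∧
      mach.run x (6 * w.length) = (⟨(0 : Fin 18), 0, (AMem.init.cmds w).ptr,
        (AMem.init.cmds w).size, 3 * w.length, o⟩ : SConf 3 18) ∧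
      (w ≠ [] → o.head? = some (lastOut w) ∧
        (mach.run x (6 * w.length - 1)).reads = 3 * w.length ∧
        (mach.run x (6 * w.length - 1)).out.length = w.length - 1) := by
  induction w using List.reverseRecOn with
  | nil =>
    intro x _
    exact ⟨[], rfl, rfl, fun h => absurd rfl h⟩
  | append_singleton w g ih =>
    intro x hx
    have hx' : ∀ i < 3 * w.length, x i = bitsOf w i := by
      intro i hi
      rw [hx i (by rw [List.length_append]; omega), bitsOf_append_left w g hi]
    have hb : ∀ j < 3, x (3 * w.length + j) = g.bits j := by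
      intro j hj
      rw [hx _ (by rw [List.length_append, List.length_singleton]; omega),
        bitsOf_append_right w g hj]
    obtain ⟨o, ho, hrun, -⟩ := ih x hx'
    obtain ⟨⟨l, p', s', h5⟩, h6⟩ := mach_steps x (AMem.init.cmds w).ptr (AMem.init.cmds w).size
      (3 * w.length) o g (hb 0 (by omega)) (hb 1 (by omega)) (hb 2 (by omega))
    have hlen : (w ++ [g]).length = w.length + 1 := by simp
    have e6 : mach.run x (6 * (w ++ [g]).length) =
        (mach.step x)^[6] (mach.run x (6 * w.length)) := by
      rw [hlen, show 6 * (w.length + 1) = 6 + 6 * w.length by ring]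
      exact Function.iterate_add_apply _ _ _ _
    have e5 : mach.run x (6 * (w ++ [g]).length - 1) =
        (mach.step x)^[5] (mach.run x (6 * w.length)) := by
      rw [hlen, show 6 * (w.length + 1) - 1 = 5 + 6 * w.length by omega]
      exact Function.iterate_add_apply _ _ _ _
    rw [hrun] at e5 e6
    refine ⟨((AMem.init.cmds w).cmd g).label :: o, ?_, ?_, fun _ => ⟨?_, ?_, ?_⟩⟩
    · rw [hlen, List.length_cons, ho]
    · rw [e6, cmds_append, hlen]
      exact h6
    · rw [lastOut, cmds_append]
      rfl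
    · rw [e5, hlen]
      have := congrArg SConf.reads h5
      exact this
    · rw [e5, hlen]
      have := congrArg (fun c => (SConf.out c).length) h5
      exact this.trans (by simp [ho])

/-- The run of `mach`. On a stream that starts with the bits of the commands `w`, after
`6 * w.length` steps it has executed `w`. -/
theorem mach_run (w : List Cmd) (x : ℕ → Bool) (hx : ∀ i < 3 * w.length, x i = bitsOf w i) :
    (mach.run x (6 * w.length)).reads = 3 * w.length ∧
    (mach.run x (6 * w.length)).out.length = w.length ∧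
    (mach.run x (6 * w.length)).line = (0 : Fin 18) ∧
    (mach.run x (6 * w.length)).centre = 0 ∧
    (mach.run x (6 * w.length)).ptr = (AMem.init.cmds w).ptr ∧
    (mach.run x (6 * w.length)).size = (AMem.init.cmds w).size ∧
    (w ≠ [] → (mach.run x (6 * w.length)).out.head? = some (lastOut w) ∧
      (mach.run x (6 * w.length - 1)).reads = 3 * w.length ∧
      (mach.run x (6 * w.length - 1)).out.length = w.length - 1) := by
  obtain ⟨o, h1, h2, h3⟩ := mach_run_aux w x hx
  rw [h2]
  exact ⟨rfl, h1, rfl, rfl, rfl, rfl, h3⟩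

/-! ### the run of `K` -/

theorem kstep_facts (K : KUM) (x : ℕ → Bool) (c : KConf K.D K.n) :
    c.out <:+ (K.step x c).out ∧ (K.step x c).out.length ≤ c.out.length + 1 ∧
      c.reads ≤ (K.step x c).reads := by
  unfold KUM.step
  split
  · exact ⟨List.suffix_refl _, Nat.le_succ _, le_rfl⟩
  · exact ⟨List.suffix_refl _, Nat.le_succ _, Nat.le_succ _⟩
  · exact ⟨List.suffix_cons _ _, le_rfl, le_rfl⟩

theorem krun_succ (K : KUM) (x : ℕ → Bool) (t : ℕ) : K.run x (t + 1) = K.step x (K.run x t) :=
  Function.iterate_succ_apply' _ _ _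

theorem krun_mono (K : KUM) (x : ℕ → Bool) {s t : ℕ} (h : s ≤ t) :
    (K.run x s).out <:+ (K.run x t).out ∧ (K.run x s).reads ≤ (K.run x t).reads := by
  induction t, h using Nat.le_induction with
  | base => exact ⟨List.suffix_refl _, le_rfl⟩
  | succ t _ ih =>
    have h := kstep_facts K x (K.run x t)
    rw [krun_succ]
    exact ⟨ih.1.trans h.1, ih.2.trans h.2.2⟩

theorem krun_len_mono (K : KUM) (x : ℕ → Bool) {s t : ℕ} (h : s ≤ t) :
    (K.run x s).out.length ≤ (K.run x t).out.length := (krun_mono K x h).1.length_le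

/-- forget the output -/
def toMic {D n : ℕ} (c : KConf D n) (r0 : ℕ) : Mic D n :=
  ⟨c.state, c.head, c.size, c.edges, c.reads - r0, none⟩

theorem micStep_toMic (K : KUM) (x b : ℕ → Bool) (c : KConf K.D K.n) (r0 : ℕ)
    (hout : (K.step x c).out.length = c.out.length) (hr : r0 ≤ c.reads)
    (hr' : (K.step x c).reads ≤ r0 + 3) (hb : ∀ j < 3, x (r0 + j) = b j) :
    micStep K b (toMic c r0) = toMic (K.step x c) r0 := by
  have h1 : (toMic c r0).bit.isSome = false := rfl
  unfold micStep
  rw [h1, if_neg Bool.false_ne_true]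
  unfold KUM.step at hout hr' ⊢
  change (match K.act c.state (view K.r c.edges c.head) with
    | .rewrite k ops head next => _
    | .read next => _
    | .write o next => _) = _
  split
  · rename_i k ops head next hact
    simp only [hact]
    rfl
  · rename_i next hact
    simp only [hact] at hr' ⊢
    have h2 : x c.reads = b (c.reads - r0) := by
      rw [← hb (c.reads - r0) (by omega)]
      congr 1
      omega
    simp only [toMic, h2]
    congr 1
    omega
  · rename_i o next hact
    simp [hact] at hout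

theorem micStep_write (K : KUM) (x b : ℕ → Bool) (c : KConf K.D K.n) (r0 : ℕ)
    (hout : (K.step x c).out.length ≠ c.out.length) :
    micStep K b (toMic c r0) =
      { toMic (K.step x c) r0 with bit := (K.step x c).out.head? } ∧
      (K.step x c).out.head?.isSome := by
  have h1 : (toMic c r0).bit.isSome = false := rfl
  unfold micStep
  rw [h1, if_neg Bool.false_ne_true]
  unfold KUM.step at hout ⊢
  change (match K.act c.state (view K.r c.edges c.head) with
    | .rewrite k ops head next => _
    | .read next => _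
    | .write o next => _) = _ ∧ _
  split
  · rename_i k ops head next hact
    simp [hact] at hout
  · rename_i next hact
    simp [hact] at hout
  · rename_i o next hact
    simp only [hact]
    exact ⟨rfl, rfl⟩

theorem micro (K : KUM) (x b : ℕ → Bool) (r0 t0 m : ℕ) (hb : ∀ j < 3, x (r0 + j) = b j)
    (hr : r0 = (K.run x t0).reads)
    (hout : (K.run x (t0 + m)).out.length = (K.run x t0).out.length)
    (hr' : (K.run x (t0 + m)).reads ≤ r0 + 3) :
    ∀ i ≤ m, (micStep K b)^[i] (toMic (K.run x t0) r0) = toMic (K.run x (t0 + i)) r0 := by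
  intro i
  induction i with
  | zero => intro _; rfl
  | succ i ih =>
    intro hi
    rw [Function.iterate_succ_apply', ih (by omega), ← Nat.add_assoc, krun_succ]
    have e : t0 + (i + 1) = t0 + i + 1 := rfl
    refine micStep_toMic K x b _ r0 ?_ ?_ ?_ hb
    · rw [← krun_succ]
      have h1 := krun_len_mono K x (show t0 + i + 1 ≤ t0 + m by omega)
      have h2 := krun_len_mono K x (show t0 ≤ t0 + i by omega)
      have h3 := krun_len_mono K x (show t0 + i ≤ t0 + i + 1 by omega)
      omega
    · rw [hr]; exact (krun_mono K x (by omega)).2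
    · rw [← krun_succ]
      exact (krun_mono K x (show t0 + i + 1 ≤ t0 + m by omega)).2.trans hr'

theorem micStep_frozen (K : KUM) (b : ℕ → Bool) (c : Mic K.D K.n) (h : c.bit.isSome) (n : ℕ) :
    (micStep K b)^[n] c = c := by
  induction n with
  | zero => rfl
  | succ n ih =>
    rw [Function.iterate_succ_apply']
    rw [ih]
    unfold micStep
    rw [if_pos h]

theorem wordRun_concat (K : KUM) (F : ℕ) (w : List Cmd) (g : Cmd) : ∀ c : Mic K.D K.n,
    wordRun K F (w ++ [g]) c = cmdRun K F g (wordRun K F w c) := by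
  induction w with
  | nil => intro c; rfl
  | cons h w ih => intro c; exact ih _

/-- the command level step -/
theorem online_step (K : KUM) (c : ℕ) (x : ℕ → Bool) (τ : ℕ → ℕ) (hτ0 : τ 0 = 0)
    (hτ : ∀ t, τ t ≤ τ (t + 1) ∧ τ (t + 1) ≤ τ t + c)
    (hsim : ∀ t, (K.run x (τ t)).reads = (mach.run x t).reads ∧
      (K.run x (τ t)).out = (mach.run x t).out)
    (w : List Cmd) (g : Cmd) (hx : ∀ i < 3 * (w ++ [g]).length, x i = bitsOf (w ++ [g]) i)
    (t0 : ℕ) (hlen : (K.run x t0).out.length = w.length)
    (hreads : (K.run x t0).reads = 3 * w.length) (C : Mic K.D K.n)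
    (hC : C.reset = toMic (K.run x t0) (3 * w.length)) :
    ∃ t1, (K.run x t1).out.length = (w ++ [g]).length ∧
      (K.run x t1).reads = 3 * (w ++ [g]).length ∧
      (cmdRun K (7 * c + 1) g C).reset = toMic (K.run x t1) (3 * (w ++ [g]).length) ∧
      (cmdRun K (7 * c + 1) g C).bit = some (lastOut (w ++ [g])) := by
  have hx' : ∀ i < 3 * w.length, x i = bitsOf w i := by
    intro i hi
    rw [hx i (by rw [List.length_append]; omega), bitsOf_append_left w g hi]
  have hb : ∀ j < 3, x (3 * w.length + j) = g.bits j := by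
    intro j hj
    rw [hx _ (by rw [List.length_append, List.length_singleton]; omega),
      bitsOf_append_right w g hj]
  have hlenwg : (w ++ [g]).length = w.length + 1 := by simp
  rw [hlenwg]
  obtain ⟨a1, a2, -, -, -, -, a3⟩ := mach_run (w ++ [g]) x hx
  obtain ⟨a3, a4, a5⟩ := a3 (by simp)
  rw [hlenwg] at a1 a2 a3 a4 a5
  set q := w.length with hq
  -- the two times
  have b1 : (K.run x (τ (6 * (q + 1)))).out.length = q + 1 := by rw [(hsim _).2, a2]
  have b2 : (K.run x (τ (6 * (q + 1)))).reads = 3 * (q + 1) := by rw [(hsim _).1, a1]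
  have b3 : (K.run x (τ (6 * (q + 1) - 1))).out.length = q := by rw [(hsim _).2, a5]; rfl
  have b4 : (K.run x (τ (6 * (q + 1) - 1))).reads = 3 * (q + 1) := by rw [(hsim _).1, a4]
  have hex : ∃ t, q + 1 ≤ (K.run x t).out.length := ⟨_, b1.ge⟩
  classical
  obtain ⟨t1, ht1, ht1min⟩ : ∃ t1, q + 1 ≤ (K.run x t1).out.length ∧
      ∀ t < t1, (K.run x t).out.length ≤ q :=
    ⟨Nat.find hex, Nat.find_spec hex, fun t ht => Nat.lt_succ_iff.1 (not_le.1 (Nat.find_min hex ht))⟩
  have c1 : t1 ≤ τ (6 * (q + 1)) := by
    by_contra h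
    have := ht1min _ (not_le.1 h)
    omega
  have c2 : t0 < t1 := by
    by_contra h
    have := krun_len_mono K x (not_lt.1 h)
    omega
  have c3 : τ (6 * (q + 1) - 1) < t1 := by
    by_contra h
    have := krun_len_mono K x (not_lt.1 h)
    omega
  obtain ⟨m, rfl⟩ : ∃ m, t1 = t0 + m + 1 := ⟨t1 - 1 - t0, by omega⟩
  have c4 : (K.run x (t0 + m)).out.length = q := by
    have h1 := ht1min (t0 + m) (by omega)
    have h2 := krun_len_mono K x (show t0 ≤ t0 + m by omega)
    omega
  have c5 : (K.run x (t0 + m + 1)).out.length = q + 1 := by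
    have := (kstep_facts K x (K.run x (t0 + m))).2.1
    rw [← krun_succ] at this
    omega
  have c6 : (K.run x (t0 + m + 1)).reads = 3 * (q + 1) := by
    have h1 := (krun_mono K x c3.le).2
    have h2 := (krun_mono K x c1).2
    omega
  -- the bound
  have hmono : ∀ s n, τ (s + n) ≤ τ s + n * c := by
    intro s n
    induction n with
    | zero => simp
    | succ n ih =>
      have := (hτ (s + n)).2
      rw [← Nat.add_assoc, Nat.succ_mul]
      omega
  have c7 : m + 1 ≤ 7 * c + 1 := by
    rcases Nat.eq_zero_or_pos q with h0 | h0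
    · have := hmono 0 6
      rw [h0] at c1
      simp only [Nat.zero_add, Nat.mul_one] at c1 this
      rw [hτ0] at this
      omega
    · have h1 : w ≠ [] := by
        intro h; rw [h] at hq; simp at hq; omega
      obtain ⟨-, -, -, -, -, -, d3⟩ := mach_run w x hx'
      obtain ⟨-, -, d5⟩ := d3 h1
      rw [← hq] at d5
      have h2 : (K.run x (τ (6 * q - 1))).out.length = q - 1 := by rw [(hsim _).2, d5]
      have h3 : τ (6 * q - 1) < t0 := by
        by_contra h
        have := krun_len_mono K x (not_lt.1 h)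
        omega
      have h4 := hmono (6 * q - 1) 7
      rw [show 6 * q - 1 + 7 = 6 * (q + 1) by omega] at h4
      omega
  -- the micro-run
  have hm := micro K x g.bits (3 * q) t0 m hb hreads.symm (c4.trans hlen.symm) (by
    have := (krun_mono K x (show t0 + m ≤ t0 + m + 1 by omega)).2
    omega) m le_rfl
  obtain ⟨e1, e2⟩ := micStep_write K x g.bits (K.run x (t0 + m)) (3 * q) (by
    rw [← krun_succ]; omega)
  rw [← krun_succ] at e1 e2
  have e3 : cmdRun K (7 * c + 1) g C =
      { toMic (K.run x (t0 + m + 1)) (3 * q) with bit := (K.run x (t0 + m + 1)).out.head? } := by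
    unfold cmdRun
    rw [hC, show 7 * c + 1 = (7 * c + 1 - (m + 1)) + (m + 1) by omega,
      Function.iterate_add_apply, Function.iterate_succ_apply' _ m, hm, e1]
    exact micStep_frozen K _ _ e2 _
  refine ⟨t0 + m + 1, c5, c6, ?_, ?_⟩
  · rw [e3]
    unfold toMic Mic.reset
    rw [c6, Nat.sub_self]
  · rw [e3]
    change (K.run x (t0 + m + 1)).out.head? = _
    have h1 : (K.run x (t0 + m + 1)).out = (K.run x (τ (6 * (q + 1)))).out :=
      (krun_mono K x c1).1.eq_of_length (by rw [c5, b1])
    rw [h1, (hsim _).2, a3]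

/-- If `K` simulates `mach` in real time, then for some `F` it executes every command within
`F` micro-steps and writes the correct output bit. -/
theorem online (K : KUM) (h : RealTimeSimulates K mach) : ∃ F : ℕ, F ≠ 0 ∧
    ∀ (w : List Cmd) (g : Cmd),
      (cmdRun K F g (wordRun K F w (micInit K))).bit = some (lastOut (w ++ [g])) := by
  obtain ⟨c, hc⟩ := h
  refine ⟨7 * c + 1, by omega, ?_⟩
  have key : ∀ (w : List Cmd) (x : ℕ → Bool), (∀ i < 3 * w.length, x i = bitsOf w i) →
      ∃ t, (K.run x t).out.length = w.length ∧ (K.run x t).reads = 3 * w.length ∧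
        (wordRun K (7 * c + 1) w (micInit K)).reset = toMic (K.run x t) (3 * w.length) := by
    intro w
    induction w using List.reverseRecOn with
    | nil => intro x _; exact ⟨0, rfl, rfl, rfl⟩
    | append_singleton w g ih =>
      intro x hx
      obtain ⟨τ, h0, h1, h2⟩ := hc x
      obtain ⟨t0, i1, i2, i3⟩ := ih x (fun i hi => by
        rw [hx i (by rw [List.length_append]; omega), bitsOf_append_left w g hi])
      obtain ⟨t1, j1, j2, j3, -⟩ := online_step K c x τ h0 h1 h2 w g hx t0 i1 i2 _ i3
      refine ⟨t1, j1, j2, ?_⟩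
      rw [wordRun_concat]
      exact j3
  intro w g
  have hx : ∀ i < 3 * (w ++ [g]).length, bitsOf (w ++ [g]) i = bitsOf (w ++ [g]) i :=
    fun _ _ => rfl
  obtain ⟨τ, h0, h1, h2⟩ := hc (bitsOf (w ++ [g]))
  obtain ⟨t0, i1, i2, i3⟩ := key w (bitsOf (w ++ [g])) (fun i hi => bitsOf_append_left w g hi)
  obtain ⟨-, -, -, -, j⟩ := online_step K c _ τ h0 h1 h2 w g hx t0 i1 i2 _ i3
  exact j

end Pool.Agent.H29.KU
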